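import Pool.Agent.Q275.UnivCount
import Pool.Agent.Q275.UnivFamily

set_option autoImplicit false

namespace Pool.Agent.Results.MP_f53640_co.NoUniformConstant

open Pool.Agent.Q275 Pool.Agent.Q275.Univ

/-- the replacement pattern of a word -/
def pattern {k h m : ℕ} (hk : 2 * h = k + 1) (σ : Fin m → Fin h) (i : ℕ) : Fin (k + 1) :=
  if hi : i < m then
    (if i % 2 = 0 then ⟨σ ⟨i, hi⟩, by have := (σ ⟨i, hi⟩).2; omega⟩
      else ⟨h + σ ⟨i, hi⟩, by have := (σ ⟨i, hi⟩).2; omega⟩)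
  else 0

lemma pattern_val {k h m : ℕ} (hk : 2 * h = k + 1) (σ : Fin m → Fin h) (i : ℕ) (hi : i < m) :
    (pattern hk σ i : ℕ) = if i % 2 = 0 then (σ ⟨i, hi⟩ : ℕ) else h + σ ⟨i, hi⟩ := by
  unfold pattern
  rw [dif_pos hi]
  split_ifs <;> rfl

lemma pattern_turn {k h m : ℕ} (hk : 2 * h = k + 1) (σ : Fin m → Fin h) (i : ℕ)
    (hi : i + 1 < m) : pattern hk σ (i + 1) ≠ pattern hk σ i := by
  intro e
  have e' := congrArg Fin.val e
  rw [pattern_val hk σ (i + 1) hi, pattern_val hk σ i (by omega)] at e'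
  have h1 := (σ ⟨i, by omega⟩).2
  have h2 := (σ ⟨i + 1, hi⟩).2
  rcases Nat.mod_two_eq_zero_or_one i with h0 | h0
  · rw [if_pos h0, if_neg (show ¬ (i + 1) % 2 = 0 by omega)] at e'
    omega
  · rw [if_neg (show ¬ i % 2 = 0 by omega), if_pos (show (i + 1) % 2 = 0 by omega)] at e'
    omega

lemma pattern_inj {k h m : ℕ} (hk : 2 * h = k + 1) {σ τ : Fin m → Fin h}
    (hst : ∀ i < m, pattern hk σ i = pattern hk τ i) : σ = τ := by
  funext ⟨i, hi⟩
  have e' := congrArg Fin.val (hst i hi)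
  rw [pattern_val hk σ i hi, pattern_val hk τ i hi] at e'
  apply Fin.ext
  split_ifs at e'
  · exact e'
  · omega

/-- the quantitative lower bound -/
theorem lower (h m N : ℕ) (hh : 1 ≤ h) (U : SimpleGraph (Fin N))
    (hU : ¬ IsMinor (⊤ : SimpleGraph (Fin (2 * h + 1))) U)
    (huniv : ∀ F : SimpleGraph (Fin (2 * h + m)),
      ¬ IsMinor (⊤ : SimpleGraph (Fin (2 * h + 1))) F → F.IsContained U) :
    h ^ m ≤ (2 * h) ^ (2 * h) * N ^ 2 := by
  classical
  obtain ⟨k, hk⟩ : ∃ k, 2 * h = k + 1 := ⟨2 * h - 1, by omega⟩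
  have hU' : ¬ IsMinor (⊤ : SimpleGraph (Fin (k + 2))) U := by
    rw [hk] at hU; exact hU
  have huniv' : ∀ F : SimpleGraph (Fin (k + 1 + m)),
      ¬ IsMinor (⊤ : SimpleGraph (Fin (k + 2))) F → F.IsContained U := by
    rw [hk] at huniv; exact huniv
  have hrun : ∀ σ : Fin m → Fin h, ∃ g : ℕ → Fin N,
      Run U k m (fun j => g j) (pattern hk σ) (fun i => g (k + 1 + i)) := by
    intro σ
    obtain ⟨f⟩ := huniv' (fam (pattern hk σ) (k + 1 + m)) (fam_no_minor _ _)
    exact run_of_embedding (pattern_turn hk σ) f f.injective (fun a b hab => f.toHom.map_rel hab)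
  choose g hg using hrun
  have hcard : h ^ m ≤ (tuples U k).card * N := by
    have hle := Finset.card_le_card_of_injOn (s := (Finset.univ : Finset (Fin m → Fin h)))
      (t := tuples U k ×ˢ (Finset.univ : Finset (Fin N)))
      (fun σ => ((fun j => g σ (j : Fin (k + 1))), g σ (k + 1 + (m - 1)))) (by
        intro σ _
        rw [Finset.mem_coe, Finset.mem_product]
        exact ⟨mem_tuples.2 (hg σ).clique, Finset.mem_univ _⟩) (by
        intro σ _ τ _ e
        rw [Prod.mk.injEq] at e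
        obtain ⟨e1, e2⟩ := e
        rcases m with _ | m
        · exact pattern_inj hk (fun i hi => absurd hi (Nat.not_lt_zero _))
        · have h1 := hg σ
          have h2 := hg τ
          rw [e1] at h1
          exact pattern_inj hk (Run.determined hU' m h1 h2 e2))
    rw [Finset.card_product] at hle
    simpa using hle
  calc h ^ m ≤ (tuples U k).card * N := hcard
    _ ≤ (N * (k + 1) ^ (k + 1)) * N :=
        Nat.mul_le_mul_right _ (by simpa using card_tuples_le hU')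
    _ = (2 * h) ^ (2 * h) * N ^ 2 := by rw [hk]; ring

/-- **No constant independent of `t`.** First, the quantitative form: every `K_{2h+1}`-minor-free
graph on `N` vertices containing all `K_{2h+1}`-minor-free graphs on `2h+m` vertices has
`h ^ m ≤ (2h)^(2h) * N^2`. Consequently, for every `c > 0` there is a `t` such that for all large
`n` every faithful universal graph for the `n`-vertex `K_t`-minor-free graphs has more than
`2^(c n)` vertices. -/
theorem result :
    (∀ h m N : ℕ, 1 ≤ h → ∀ U : SimpleGraph (Fin N),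
      ¬ IsMinor (⊤ : SimpleGraph (Fin (2 * h + 1))) U →
      (∀ F : SimpleGraph (Fin (2 * h + m)),
        ¬ IsMinor (⊤ : SimpleGraph (Fin (2 * h + 1))) F → F.IsContained U) →
      h ^ m ≤ (2 * h) ^ (2 * h) * N ^ 2) ∧
    ∀ c : ℝ, 0 < c → ∃ t n₀ : ℕ, ∀ n : ℕ, n₀ ≤ n → ∀ (N : ℕ) (U : SimpleGraph (Fin N)),
      ¬ IsMinor (⊤ : SimpleGraph (Fin t)) U →
      (∀ F : SimpleGraph (Fin n), ¬ IsMinor (⊤ : SimpleGraph (Fin t)) F → F.IsContained U) →
      (2 : ℝ) ^ (c * n) < N := by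
  refine ⟨fun h m N hh U hU hF => lower h m N hh U hU hF, ?_⟩
  intro c hc
  obtain ⟨C, hC⟩ : ∃ C : ℕ, c ≤ C := exists_nat_ge c
  obtain ⟨h, hh⟩ : ∃ h : ℕ, h = 4 ^ (C + 1) := ⟨_, rfl⟩
  have hh1 : 1 ≤ h := by rw [hh]; exact Nat.one_le_pow _ _ (by norm_num)
  refine ⟨2 * h + 1, 2 * h + (2 * h * C + (2 * h) ^ (2 * h)), ?_⟩
  intro n hn N U hU hF
  obtain ⟨d, rfl⟩ : ∃ d, n = 2 * h + (2 * h * C + (2 * h) ^ (2 * h) + d) :=
    ⟨n - (2 * h + (2 * h * C + (2 * h) ^ (2 * h))), by omega⟩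
  by_contra hcon
  push Not at hcon
  have hlow := lower h _ N hh1 U hU hF
  set E := (2 * h) ^ (2 * h) with hE
  have hN : N ≤ 2 ^ (C * (2 * h + (2 * h * C + E + d))) := by
    have h1 : ((N : ℕ) : ℝ) ≤ (2 : ℝ) ^ (((C * (2 * h + (2 * h * C + E + d)) : ℕ)) : ℝ) := by
      refine hcon.trans (Real.rpow_le_rpow_of_exponent_le (by norm_num) ?_)
      rw [Nat.cast_mul]
      exact mul_le_mul_of_nonneg_right hC (Nat.cast_nonneg _)
    rw [Real.rpow_natCast] at h1
    exact_mod_cast h1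
  have h2 : N ^ 2 ≤ 4 ^ (C * (2 * h + (2 * h * C + E + d))) := by
    calc N ^ 2 ≤ (2 ^ (C * (2 * h + (2 * h * C + E + d)))) ^ 2 := Nat.pow_le_pow_left hN 2
      _ = 4 ^ (C * (2 * h + (2 * h * C + E + d))) := by
          rw [← pow_mul, mul_comm _ 2, pow_mul]; norm_num
  have h3 : h ^ (2 * h * C + E + d) =
      4 ^ (C * (2 * h + (2 * h * C + E + d))) * 4 ^ (E + d) := by
    have h0 : ∀ X : ℕ, h ^ X = 4 ^ ((C + 1) * X) := by
      intro X
      rw [hh, ← pow_mul]
    rw [h0, ← pow_add]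
    congr 1
    ring
  have h4 : E < 4 ^ (E + d) :=
    lt_of_le_of_lt (Nat.le_add_right E d) (Nat.lt_pow_self (by norm_num))
  have h5 : 0 < 4 ^ (C * (2 * h + (2 * h * C + E + d))) := by positivity
  rw [h3] at hlow
  have h6 : 4 ^ (C * (2 * h + (2 * h * C + E + d))) * 4 ^ (E + d) ≤
      4 ^ (C * (2 * h + (2 * h * C + E + d))) * E := by
    refine hlow.trans ?_
    rw [mul_comm E]
    exact Nat.mul_le_mul_right _ h2
  have h7 := Nat.le_of_mul_le_mul_left h6 h5
  omega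

end Pool.Agent.Results.MP_f53640_co.NoUniformConstant
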